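import Pool.Agent.H83.UE.Targets3
import Pool.Agent.H10.UDA.LJ1

/-!
# Board udb_modules, row LJE: the weighted Lojasiewicz property
-/

set_option autoImplicit false

open Polynomial MeasureTheory Filter Topology Set
open Pool.Agent.H83.UE

namespace Pool.Agent.H86.UDB

open Pool.Agent.H10.UDA

theorem cd_nonneg (v w : ℂ × ℂ) : 0 ≤ cd v w := by
  unfold cd
  positivity

theorem cd_le_two (v w : ℂ × ℂ) : cd v w ≤ 2 := by
  unfold cd
  rcases (mul_nonneg (norm_nonneg v) (norm_nonneg w)).eq_or_lt with h | h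
  · rw [← h, div_zero]
    norm_num
  · rw [div_le_iff₀ h]
    exact wd_le v w

theorem omh_nonneg (E : Finset (OnePoint ℂ)) (v : ℂ × ℂ) : 0 ≤ omh E v :=
  Finset.prod_nonneg fun _ _ => cd_nonneg _ _

theorem omh_le (E : Finset (OnePoint ℂ)) (v : ℂ × ℂ) : omh E v ≤ 2 ^ E.card := by
  unfold omh
  rw [← Finset.prod_const]
  exact Finset.prod_le_prod (fun _ _ => cd_nonneg _ _) fun _ _ => cd_le_two _ _

theorem omh_smul (E : Finset (OnePoint ℂ)) {a : ℂ} (ha : a ≠ 0) (v : ℂ × ℂ) :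
    omh E (a • v) = omh E v := by
  unfold omh
  refine Finset.prod_congr rfl fun e _ => ?_
  have h := cd_smul ha one_ne_zero v (vec e)
  rwa [one_smul] at h

theorem vec_ne (e : OnePoint ℂ) : vec e ≠ 0 := by
  unfold vec
  cases e with
  | infty =>
      intro h
      exact one_ne_zero (congrArg Prod.fst h)
  | coe a =>
      intro h
      exact one_ne_zero (congrArg Prod.snd h)

/-- the three vector identity -/
theorem wd_tri (w x y : ℂ × ℂ) : wd x y • w = wd w y • x - wd w x • y := by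
  unfold wd
  refine Prod.ext ?_ ?_
  · simp only [Prod.smul_fst, Prod.fst_sub, smul_eq_mul]
    ring
  · simp only [Prod.smul_snd, Prod.snd_sub, smul_eq_mul]
    ring

theorem wd_quasi {w x y : ℂ × ℂ} (hw : ‖w‖ = 1) (hx : ‖x‖ = 1) (hy : ‖y‖ = 1) :
    ‖wd x y‖ ≤ ‖wd w x‖ + ‖wd w y‖ := by
  have h1 := congrArg norm (wd_tri w x y)
  have h2 := norm_sub_le (wd w y • x) (wd w x • y)
  rw [norm_smul, hw, mul_one] at h1
  rw [norm_smul, norm_smul, hx, hy, mul_one, mul_one] at h2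
  linarith

theorem wd_self (x : ℂ × ℂ) : wd x x = 0 := by
  unfold wd
  ring

/-- (b): spread -/
theorem spread (h2 : T_LE1) (h3 : T_LE2) {D : ℕ} {A B : ℂ[X]} (hD : 2 ≤ D)
    (hA : A.natDegree ≤ D) (hB : B.natDegree ≤ D)
    (hne : ∀ w : ℂ × ℂ, w ≠ 0 → (hev D A w, hev D B w) ≠ (0 : ℂ × ℂ))
    {E : Finset (OnePoint ℂ)}
    (hE : ∀ e ∈ E, ∃ c : ℂ, c ≠ 0 ∧
      ∀ w : ℂ × ℂ, wd (hev D A w, hev D B w) (vec e) = c * wd w (vec e) ^ D)
    (hN : ∀ z x : ℂ × ℂ, z ≠ 0 → x ≠ 0 → omh E z ≠ 0 → ∀ c : ℂ,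
      ¬ ∀ w : ℂ × ℂ, wd (hev D A w, hev D B w) z = c * wd w x ^ D) :
    ∃ s : ℝ, 0 < s ∧ ∀ z : ℂ × ℂ, z ≠ 0 → omh E z ≠ 0 → ∀ (b : ℂ) (x : Fin D → ℂ × ℂ),
      (∀ i, x i ≠ 0) → (∀ w : ℂ × ℂ, wd (hev D A w, hev D B w) z = b * ∏ i, wd w (x i)) →
        ∃ i j, s * omh E z ≤ cd (x i) (x j) := by
  classical
  -- minimum over `E`
  have hmin : ∀ F : Finset (OnePoint ℂ), F ⊆ E → ∃ t s : ℝ, 0 < t ∧ 0 < s ∧ ∀ e ∈ F,
      ∀ z : ℂ × ℂ, z ≠ 0 → 0 < cd z (vec e) → cd z (vec e) ≤ t →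
      ∀ (b : ℂ) (x : Fin D → ℂ × ℂ), (∀ i, x i ≠ 0) →
        (∀ w : ℂ × ℂ, wd (hev D A w, hev D B w) z = b * ∏ i, wd w (x i)) →
          ∃ i j, s * cd z (vec e) ≤ cd (x i) (x j) := by
    intro F
    induction F using Finset.induction_on with
    | empty =>
        exact fun _ => ⟨1, 1, one_pos, one_pos, fun e he => absurd he (Finset.notMem_empty e)⟩
    | insert e F he ih =>
        intro hF
        obtain ⟨t, s, ht, hs, hts⟩ := ih fun a ha => hF (Finset.mem_insert_of_mem ha)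
        obtain ⟨c, hc, hce⟩ := hE e (hF (Finset.mem_insert_self e F))
        obtain ⟨t', s', ht', hs', hts'⟩ := h2 D A B hD hA hB hne e c hc hce
        refine ⟨min t t', min s s', lt_min ht ht', lt_min hs hs', ?_⟩
        intro a ha z hz h0 hle b x hx hrep
        rcases Finset.mem_insert.1 ha with rfl | ha
        · obtain ⟨i, j, hij⟩ := hts' z hz h0 (hle.trans (min_le_right _ _)) b x hx hrep
          exact ⟨i, j, (mul_le_mul_of_nonneg_right (min_le_right _ _) h0.le).trans hij⟩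
        · obtain ⟨i, j, hij⟩ := hts a ha z hz h0 (hle.trans (min_le_left _ _)) b x hx hrep
          exact ⟨i, j, (mul_le_mul_of_nonneg_right (min_le_left _ _) h0.le).trans hij⟩
  obtain ⟨t, s1, ht, hs1, hts⟩ := hmin E subset_rfl
  obtain ⟨s2, hs2, hs2'⟩ := h3 D A B (by omega) hA hB hne E hN (t ^ E.card) (pow_pos ht _)
  refine ⟨min s1 s2 / 2 ^ E.card, by have := lt_min hs1 hs2; positivity, ?_⟩
  intro z hz hom b x hx hrep
  have hpos : ∀ e ∈ E, 0 < cd z (vec e) := by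
    intro e he
    refine (cd_nonneg _ _).lt_of_ne' ?_
    intro h0
    exact hom (Finset.prod_eq_zero he h0)
  have hmn : 0 < min s1 s2 := lt_min hs1 hs2
  by_cases h : ∃ e ∈ E, cd z (vec e) ≤ t
  · obtain ⟨e, he, hle⟩ := h
    obtain ⟨i, j, hij⟩ := hts e he z hz (hpos e he) hle b x hx hrep
    refine ⟨i, j, le_trans ?_ hij⟩
    have h1 : omh E z ≤ cd z (vec e) * 2 ^ E.card := by
      unfold omh
      rw [← Finset.mul_prod_erase E (fun e => cd z (vec e)) he]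
      refine mul_le_mul_of_nonneg_left ?_ (hpos e he).le
      calc ∏ a ∈ E.erase e, cd z (vec a) ≤ ∏ _a ∈ E.erase e, (2 : ℝ) :=
            Finset.prod_le_prod (fun _ _ => cd_nonneg _ _) fun _ _ => cd_le_two _ _
        _ = 2 ^ (E.erase e).card := by rw [Finset.prod_const]
        _ ≤ 2 ^ E.card := pow_le_pow_right₀ (by norm_num) (Finset.card_erase_le)
    calc min s1 s2 / 2 ^ E.card * omh E z
        ≤ min s1 s2 / 2 ^ E.card * (cd z (vec e) * 2 ^ E.card) :=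
          mul_le_mul_of_nonneg_left h1 (by positivity)
      _ = min s1 s2 * cd z (vec e) := by field_simp
      _ ≤ s1 * cd z (vec e) := mul_le_mul_of_nonneg_right (min_le_left _ _) (hpos e he).le
  · push Not at h
    have h1 : t ^ E.card ≤ omh E z := by
      unfold omh
      rw [← Finset.prod_const]
      exact Finset.prod_le_prod (fun _ _ => ht.le) fun e he => (h e he).le
    obtain ⟨i, j, hij⟩ := hs2' z hz h1 b x hx hrep
    refine ⟨i, j, le_trans ?_ hij⟩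
    calc min s1 s2 / 2 ^ E.card * omh E z ≤ min s1 s2 / 2 ^ E.card * 2 ^ E.card :=
          mul_le_mul_of_nonneg_left (omh_le E z) (by positivity)
      _ = min s1 s2 := by field_simp
      _ ≤ s2 := min_le_right _ _

theorem lje_core {D : ℕ} {H : ℂ × ℂ → ℂ × ℂ} {E : Finset (OnePoint ℂ)} (hHc : Continuous H)
    (hHs : ∀ (a : ℂ) (w : ℂ × ℂ), H (a • w) = a ^ D • H w) (hne : ∀ w : ℂ × ℂ, w ≠ 0 → H w ≠ 0)
    (hz : ∀ z : ℂ × ℂ, z ≠ 0 → ∃ w, wd (H w) z ≠ 0)
    (hE : ∀ e ∈ E, ∃ c : ℂ, c ≠ 0 ∧ ∀ w : ℂ × ℂ, wd (H w) (vec e) = c * wd w (vec e) ^ D)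
    {s : ℝ} (hs : 0 < s) (hsp : ∀ z : ℂ × ℂ, z ≠ 0 → omh E z ≠ 0 → ∀ (b : ℂ)
      (x : Fin D → ℂ × ℂ), (∀ i, x i ≠ 0) → (∀ w : ℂ × ℂ, wd (H w) z = b * ∏ i, wd w (x i)) →
        ∃ i j, s * omh E z ≤ cd (x i) (x j))
    (hbf : ∀ z : ℂ × ℂ, z ≠ 0 → ∃ (b : ℂ) (x : Fin D → ℂ × ℂ), (∀ i, ‖x i‖ = 1) ∧
      ∀ w : ℂ × ℂ, wd (H w) z = b * ∏ i, wd w (x i)) :
    LojW D H E := by
  classical
  obtain ⟨p, hp, h_1⟩ := claim1 (D := D) hz
  obtain ⟨M, hM⟩ := (isCompact_sphere (0 : ℂ × ℂ) 1).bddAbove_image (f := fun w => ‖H w‖)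
    hHc.norm.continuousOn
  have hM' : ∀ w, ‖w‖ = 1 → ‖H w‖ ≤ max M 1 := fun w hw =>
    (hM ⟨w, by simpa using hw, rfl⟩).trans (le_max_left _ _)
  have hM1 : 0 < max M 1 := lt_of_lt_of_le one_pos (le_max_right _ _)
  -- lower bound for `‖H w‖`
  obtain ⟨m0, hm0, hm0'⟩ : ∃ m0 : ℝ, 0 < m0 ∧ ∀ w, ‖w‖ = 1 → m0 ≤ ‖H w‖ := by
    have hnon : (Metric.sphere (0 : ℂ × ℂ) 1).Nonempty := by
      obtain ⟨a, -, ha⟩ := unit_ex (z := ((1 : ℂ), (0 : ℂ))) (by
        intro h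
        exact one_ne_zero (congrArg Prod.fst h))
      exact ⟨_, by rw [mem_sphere_zero_iff_norm]; exact ha⟩
    obtain ⟨w0, hw0, hmin⟩ := (isCompact_sphere (0 : ℂ × ℂ) 1).exists_isMinOn hnon
      (f := fun w => ‖H w‖) hHc.norm.continuousOn
    refine ⟨‖H w0‖, norm_pos_iff.2 (hne w0 ?_), fun w hw => hmin (by simpa using hw)⟩
    rintro rfl
    rw [mem_sphere_zero_iff_norm, norm_zero] at hw0
    exact zero_ne_one hw0
  -- the constants of (a)
  have hCe : ∀ e ∈ E, ∃ C : ℝ, 0 < C ∧ ∀ z x : ℂ × ℂ, z ≠ 0 → ‖x‖ = 1 → wd (H x) z = 0 →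
      cd z (vec e) ≤ C * cd x (vec e) ^ D := by
    intro e he
    obtain ⟨c, hc, hce⟩ := hE e he
    have hv : 0 < ‖vec e‖ := norm_pos_iff.2 (vec_ne e)
    refine ⟨‖c‖ * ‖vec e‖ ^ D / (m0 * ‖vec e‖), by
      have : 0 < ‖c‖ := norm_pos_iff.2 hc
      positivity, ?_⟩
    intro z x hz0 hx h0
    have hHx : H x ≠ 0 := hne x (by
      rintro rfl
      rw [norm_zero] at hx
      exact zero_ne_one hx)
    obtain ⟨t, ht⟩ := par hHx h0
    have ht0 : t ≠ 0 := by
      rintro rfl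
      rw [zero_smul] at ht
      exact hz0 ht
    have h1 : cd z (vec e) = cd (H x) (vec e) := by
      have h := cd_smul ht0 one_ne_zero (H x) (vec e)
      rw [one_smul, ← ht] at h
      exact h
    have h2 : cd (H x) (vec e) = ‖c‖ * ‖wd x (vec e)‖ ^ D / (‖H x‖ * ‖vec e‖) := by
      unfold cd
      rw [hce, norm_mul, norm_pow]
    have h3 : cd x (vec e) = ‖wd x (vec e)‖ / ‖vec e‖ := by
      unfold cd
      rw [hx, one_mul]
    rw [h1, h2, h3]
    have h4 : ‖c‖ * ‖vec e‖ ^ D / (m0 * ‖vec e‖) * (‖wd x (vec e)‖ / ‖vec e‖) ^ D =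
        ‖c‖ * ‖wd x (vec e)‖ ^ D / (m0 * ‖vec e‖) := by
      rw [div_pow]
      field_simp
    rw [h4]
    refine div_le_div_of_nonneg_left (by positivity) (by positivity) ?_
    exact mul_le_mul_of_nonneg_right (hm0' x hx) hv.le
  obtain ⟨CE, hCE, hCE'⟩ : ∃ CE : ℝ, 0 < CE ∧ ∀ z x : ℂ × ℂ, z ≠ 0 → ‖x‖ = 1 →
      wd (H x) z = 0 → omh E z ≤ CE * omh E x ^ D := by
    choose! C hC hC' using hCe
    refine ⟨∏ e ∈ E, C e, Finset.prod_pos fun e he => hC e he, ?_⟩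
    intro z x hz0 hx h0
    unfold omh
    rw [← Finset.prod_pow, ← Finset.prod_mul_distrib]
    exact Finset.prod_le_prod (fun _ _ => cd_nonneg _ _) fun e he => hC' e he z x hz0 hx h0
  refine ⟨min CE⁻¹ (p * (s / 2) / max M 1), lt_min (by positivity) (by positivity), ?_⟩
  intro z hz0 hom
  obtain ⟨a, ha, hz1⟩ := unit_ex hz0
  have haz : a • z ≠ 0 := smul_ne_zero ha hz0
  have homa : omh E (a • z) = omh E z := omh_smul E ha z
  have homp : 0 < omh E z := (omh_nonneg E z).lt_of_ne' hom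
  obtain ⟨c, x, hx, hf⟩ := hbf (a • z) haz
  have hx0 : ∀ i, x i ≠ 0 := by
    intro i h0
    have := hx i
    rw [h0, norm_zero] at this
    exact zero_ne_one this
  refine ⟨x, fun i => ?_, fun w hw => ?_⟩
  · have h1 : wd (H (x i)) (a • z) = 0 := by
      rw [hf, Finset.prod_eq_zero (Finset.mem_univ i) (wd_self (x i)), mul_zero]
    have h2 := hCE' (a • z) (x i) haz (hx i) h1
    rw [homa] at h2
    have h3 : CE⁻¹ * omh E z ≤ omh E (x i) ^ D := by
      rw [inv_mul_le_iff₀ hCE]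
      exact h2
    refine ⟨hx0 i, ?_, ?_⟩
    · intro h4
      have hx2 := hCE' (a • z) (x i) haz (hx i) h1
      rw [homa, h4] at hx2
      by_cases hD0 : D = 0
      · subst hD0
        exact i.elim0
      · rw [zero_pow hD0, mul_zero] at hx2
        linarith
    · exact (mul_le_mul_of_nonneg_right (min_le_left _ _) homp.le).trans h3
  · obtain ⟨b, hb, hw1⟩ := unit_ex hw
    obtain ⟨i1, j1, hij⟩ := hsp (a • z) haz (by rw [homa]; exact hom) c x hx0 hf
    rw [homa] at hij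
    have hq : s * omh E z ≤ ‖wd (b • w) (x i1)‖ + ‖wd (b • w) (x j1)‖ := by
      refine hij.trans (le_trans (le_of_eq ?_) (wd_quasi hw1 (hx i1) (hx j1)))
      unfold cd
      rw [hx, hx, mul_one, div_one]
    obtain ⟨i0, hi0⟩ : ∃ i0, s / 2 * omh E z ≤ ‖wd (b • w) (x i0)‖ := by
      by_contra hcon
      push Not at hcon
      have h1 := hcon i1
      have h2 := hcon j1
      linarith
    obtain ⟨i, hi⟩ := prod_ge (fun i => ‖wd (b • w) (x i)‖) (fun _ => norm_nonneg _) hi0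
    refine ⟨i, ?_⟩
    have e1 : cd w (x i) = ‖wd (b • w) (x i)‖ := by
      have := cd_smul hb one_ne_zero w (x i)
      rw [← this, one_smul]
      unfold cd
      rw [hw1, hx, mul_one, div_one]
    have e2 : cd (H w) z = ‖wd (H (b • w)) (a • z)‖ / ‖H (b • w)‖ := by
      have := cd_smul (pow_ne_zero D hb) ha (H w) z
      rw [← this, ← hHs]
      unfold cd
      rw [hz1, mul_one]
    have hH0 : 0 < ‖H (b • w)‖ := norm_pos_iff.2 (hne _ (smul_ne_zero hb hw))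
    have hle : min CE⁻¹ (p * (s / 2) / max M 1) * omh E z * cd w (x i) ^ (D - 1) ≤
        p * (s / 2) / max M 1 * omh E z * cd w (x i) ^ (D - 1) := by
      refine mul_le_mul_of_nonneg_right ?_ (pow_nonneg (cd_nonneg _ _) _)
      exact mul_le_mul_of_nonneg_right (min_le_right _ _) homp.le
    refine hle.trans ?_
    rw [e1, e2, hf, norm_mul, norm_prod]
    have e3 : p * (s / 2) / max M 1 * omh E z * ‖wd (b • w) (x i)‖ ^ (D - 1) =
        p * (s / 2 * omh E z * ‖wd (b • w) (x i)‖ ^ (D - 1)) / max M 1 := by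
      ring
    rw [e3]
    refine div_le_div₀ (by positivity) ?_ hH0 (hM' _ hw1)
    exact mul_le_mul (h_1 (a • z) x c hz1 hx hf) hi (by positivity) (norm_nonneg _)

theorem pf_LJE (h1 : T_BF) (h2 : T_LE1) (h3 : T_LE2) : T_LJE := by
  intro D A B hD hA hB hne hz E hE hN
  obtain ⟨s, hs, hsp⟩ := spread h2 h3 hD hA hB hne hE hN
  refine lje_core (D := D) (H := fun w => (hev D A w, hev D B w)) (E := E)
    ((hev_cont D A).prodMk (hev_cont D B))
    (fun a w => Prod.ext (hev_smul D A a w) (hev_smul D B a w)) hne hz hE hs hsp ?_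
  intro z hz0
  have hlin : ∀ v, hev D (C z.2 * A - C z.1 * B) v = wd (hev D A v, hev D B v) z := by
    intro v
    rw [hev_lin]
    simp only [wd]
    ring
  have hA0 : C z.2 * A - C z.1 * B ≠ 0 := by
    intro h0
    obtain ⟨w, hw⟩ := hz z hz0
    rw [← hlin, h0] at hw
    exact hw (by simp [hev])
  have hdeg : (C z.2 * A - C z.1 * B).natDegree ≤ D :=
    (natDegree_sub_le _ _).trans (max_le ((natDegree_C_mul_le _ _).trans hA)
      ((natDegree_C_mul_le _ _).trans hB))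
  obtain ⟨c, _, x, hx, hf⟩ := h1 D _ hA0 hdeg
  exact ⟨c, x, hx, fun w => by rw [← hf, hlin]⟩

end Pool.Agent.H86.UDB
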